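import Pool.Agent.V11178.RankTwoPhi

/-!
# Two-element `s`-spanning sets in `ℤ_4 × ℤ_{4l}`
-/

set_option autoImplicit false

namespace Pool.Agent.Results.MP_7e2005_co.CaseFour

open Pool.Agent.V11178 Pool.Agent.V11178.RankTwo

/-- Let `s ≥ 2` and `T = ⌊s/2⌋`. The positive integers `l` with
`φ±(ℤ_4 × ℤ_{4l}, [0, s]) = 2` are: for odd `T`, the `l` with `2l < T²`; for even `T`, the `l`
with `2l ≤ T²` that are not of the form `T²/2 - j` with `0 < j < T/2` and (`4 ∣ T`, `j` odd) or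
(`4 ∤ T`, `4 ∤ j`). -/
theorem result (s l : ℕ) (_hs : 2 ≤ s) (hl : 1 ≤ l) :
    (Odd (s / 2) → (phiPM (ZMod 4 × ZMod (4 * l)) s = 2 ↔ 2 * l < (s / 2) ^ 2)) ∧
    (Even (s / 2) → (phiPM (ZMod 4 × ZMod (4 * l)) s = 2 ↔
      2 * l ≤ (s / 2) ^ 2 ∧ ∀ j : ℕ, 0 < j → 2 * j < s / 2 → 2 * (l + j) = (s / 2) ^ 2 →
        (4 ∣ s / 2 → Even j) ∧ (¬ 4 ∣ s / 2 → 4 ∣ j))) := by
  obtain ⟨T, hT'⟩ : ∃ T, T = s / 2 := ⟨_, rfl⟩
  have hT : (2 * s + 1) / 4 = T := by omega
  rw [phi_eq_two_iff (by norm_num) hl]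
  unfold Admissible
  rw [hT, ← hT']
  constructor
  · intro hodd
    rw [Nat.odd_iff] at hodd
    constructor
    · rintro (⟨-, h | ⟨h, -, -⟩⟩ | ⟨h, -, -⟩)
      · omega
      · norm_num at h
      · omega
    · intro h
      left
      exact ⟨hodd, Or.inl (by omega)⟩
  · intro heven
    rw [Nat.even_iff] at heven
    constructor
    · rintro (⟨h, -⟩ | ⟨-, h2, h3⟩)
      · omega
      · refine ⟨h2, ?_⟩
        intro j hj hjq hkj
        constructor
        · intro hqe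
          rw [Nat.even_iff]
          by_contra hcon
          exact h3 ⟨j, hj, hjq, hkj, Or.inl ⟨by omega, by omega⟩⟩
        · intro hqo
          by_contra hcon
          exact h3 ⟨j, hj, hjq, hkj, Or.inr ⟨by omega, hcon⟩⟩
    · rintro ⟨h2, h3⟩
      right
      refine ⟨heven, h2, ?_⟩
      rintro ⟨j, hj, hjT, hkj, h4 | h4⟩
      · have := (h3 j hj hjT hkj).1 (by omega)
        rw [Nat.even_iff] at this
        omega
      · exact h4.2 ((h3 j hj hjT hkj).2 (by omega))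

end Pool.Agent.Results.MP_7e2005_co.CaseFour
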