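import Pool.Agent.V11178.RankTwoPhi

/-!
# Two-element `s`-spanning sets in `ℤ_3 × ℤ_{3k}`
-/

set_option autoImplicit false

namespace Pool.Agent.Results.MP_7e2005_co.CaseThree

open Pool.Agent.V11178 Pool.Agent.V11178.RankTwo

/-- For `s ≥ 2`, written as `s = 3q`, `3q + 1` or `3q + 2`, the positive integers `k` with
`φ±(ℤ_3 × ℤ_{3k}, [0, s]) = 2` are: for `s = 3q + 2`, the `k ≤ 2q² + 2q + 1`; for `s = 3q + 1`,
the `k ≤ 2q² + 2q`; for `s = 3q`, the `k ≤ 2q²` that are not of the form `2q² - j` with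
`0 < j < q` and (`q` even, `j` odd) or (`q` odd, `4 ∤ j`). -/
theorem result (q k : ℕ) (hk : 1 ≤ k) :
    (phiPM (ZMod 3 × ZMod (3 * k)) (3 * q + 2) = 2 ↔ k ≤ 2 * q ^ 2 + 2 * q + 1) ∧
    (1 ≤ q → (phiPM (ZMod 3 × ZMod (3 * k)) (3 * q + 1) = 2 ↔ k ≤ 2 * q ^ 2 + 2 * q)) ∧
    (1 ≤ q → (phiPM (ZMod 3 × ZMod (3 * k)) (3 * q) = 2 ↔
      k ≤ 2 * q ^ 2 ∧ ∀ j : ℕ, 0 < j → j < q → k + j = 2 * q ^ 2 →
        (Even q → Even j) ∧ (Odd q → 4 ∣ j))) := by
  refine ⟨?_, ?_, ?_⟩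
  · rw [phi_eq_two_iff (by norm_num) hk]
    unfold Admissible
    have hT : (2 * (3 * q + 2) + 1) / 3 = 2 * q + 1 := by omega
    rw [hT]
    have hsq : (2 * q + 1) ^ 2 = 4 * q ^ 2 + 4 * q + 1 := by ring
    rw [hsq]
    constructor
    · rintro (⟨-, h | ⟨-, -, h⟩⟩ | ⟨h, -, -⟩) <;> omega
    · intro h
      left
      exact ⟨by omega, Or.inr ⟨rfl, ⟨2 * q + 2, by ring⟩, by omega⟩⟩
  · intro hq
    rw [phi_eq_two_iff (by norm_num) hk]
    unfold Admissible
    have hT : (2 * (3 * q + 1) + 1) / 3 = 2 * q + 1 := by omega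
    rw [hT]
    have hsq : (2 * q + 1) ^ 2 = 4 * q ^ 2 + 4 * q + 1 := by ring
    rw [hsq]
    constructor
    · rintro (⟨-, h | ⟨-, h, -⟩⟩ | ⟨h, -, -⟩) <;> omega
    · intro h
      left
      exact ⟨by omega, Or.inl (by omega)⟩
  · intro hq
    rw [phi_eq_two_iff (by norm_num) hk]
    unfold Admissible
    have hT : (2 * (3 * q) + 1) / 3 = 2 * q := by omega
    rw [hT]
    have hsq : (2 * q) ^ 2 = 4 * q ^ 2 := by ring
    rw [hsq]
    constructor
    · rintro (⟨h, -⟩ | ⟨-, h2, h3⟩)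
      · omega
      · refine ⟨by omega, ?_⟩
        intro j hj hjq hkj
        constructor
        · intro hqe
          rw [Nat.even_iff] at hqe ⊢
          by_contra hcon
          exact h3 ⟨j, hj, by omega, by omega, Or.inl ⟨by omega, by omega⟩⟩
        · intro hqo
          rw [Nat.odd_iff] at hqo
          by_contra hcon
          exact h3 ⟨j, hj, by omega, by omega, Or.inr ⟨by omega, hcon⟩⟩
    · rintro ⟨h2, h3⟩
      right
      refine ⟨by omega, by omega, ?_⟩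
      rintro ⟨j, hj, hjT, hkj, h4 | h4⟩
      · have := (h3 j hj (by omega) (by omega)).1 (by rw [Nat.even_iff]; omega)
        rw [Nat.even_iff] at this
        omega
      · exact h4.2 ((h3 j hj (by omega) (by omega)).2 (by rw [Nat.odd_iff]; omega))

end Pool.Agent.Results.MP_7e2005_co.CaseThree
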